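import Pool.Agent.W533.PP.Stm

/-!
# Project PP, part ISUM
-/

set_option autoImplicit false

namespace Pool.Agent.W715.PP

open Finset Pool.Agent.W533.PP
open scoped Classical

theorem isum (h1 : ILAB) (h2 : RANK) : ISUM := by
  intro n e he m
  have hact : ActI e (n + 1) := by
    refine ⟨le_rfl, ?_⟩
    rintro i j _ ⟨_, h4⟩
    have h5 := he.1 i
    have h6 := i.isLt
    omega
  have hbM : bL e + Mx e = n + 1 := (h1 n e he (n + 1) hact).1
  have hM : Mx e + 1 ≤ n + 2 := by omega
  -- all high values are active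
  have hcard : ((Finset.Ico (Mx e + 1) (n+2)).filter (fun s => ActI e s)).card =
      (Finset.Ico (Mx e + 1) (n+2)).card := by
    rw [Nat.card_Ico]
    change bL e = _
    omega
  have hhigh : (Finset.Ico (Mx e + 1) (n+2)).filter (fun s => ActI e s) =
      Finset.Ico (Mx e + 1) (n+2) :=
    Finset.eq_of_subset_of_card_le (Finset.filter_subset _ _) hcard.ge
  have hhigh' : ∀ x ∈ Finset.Ico (Mx e + 1) (n+2), ActI e x := by
    intro x hx
    rw [← hhigh] at hx
    exact (Finset.mem_filter.mp hx).2
  have hsplit : aI e = (Finset.range (Mx e + 1)).filter (fun s => ActI e s) ∪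
      Finset.Ico (Mx e + 1) (n+2) := by
    ext x
    unfold aI
    simp only [Finset.mem_filter, Finset.mem_range, Finset.mem_union, Finset.mem_Ico]
    constructor
    · rintro ⟨h3, h4⟩
      by_cases h5 : x < Mx e + 1
      · exact Or.inl ⟨h5, h4⟩
      · exact Or.inr ⟨by omega, h3⟩
    · rintro (⟨h3, h4⟩ | ⟨h3, h4⟩)
      · exact ⟨by omega, h4⟩
      · exact ⟨h4, hhigh' x (Finset.mem_Ico.mpr ⟨h3, h4⟩)⟩
  have hdisj : Disjoint ((Finset.range (Mx e + 1)).filter (fun s => ActI e s))
      (Finset.Ico (Mx e + 1) (n+2)) := by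
    rw [Finset.disjoint_left]
    intro x hx hx2
    rw [Finset.mem_filter, Finset.mem_range] at hx
    rw [Finset.mem_Ico] at hx2
    omega
  have hlow : ∑ x ∈ (Finset.range (Mx e + 1)).filter (fun s => ActI e s),
      T m (bL (app e x)) (aL (app e x)) = ∑ i ∈ Finset.range (aL e), T m (bL e + 1) (i + 1) := by
    have h3 := h2 ((Finset.range (Mx e + 1)).filter (fun s => ActI e s)) (fun r => T m (bL e + 1) r)
    refine Eq.trans ?_ h3
    apply Finset.sum_congr rfl
    intro x hx
    have hx' := hx
    rw [Finset.mem_filter, Finset.mem_range] at hx'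
    obtain ⟨_, h4, _⟩ := h1 n e he x hx'.2
    obtain ⟨h5, h6⟩ := h4 (by omega)
    rw [h5, h6]
    have h7 : (aI e).filter (fun s => s ≤ x) =
        ((Finset.range (Mx e + 1)).filter (fun s => ActI e s)).filter (fun s => s ≤ x) := by
      ext s
      unfold aI
      simp only [Finset.mem_filter, Finset.mem_range]
      constructor
      · rintro ⟨⟨h8, h9⟩, h10⟩
        exact ⟨⟨by omega, h9⟩, h10⟩
      · rintro ⟨⟨h8, h9⟩, h10⟩
        exact ⟨⟨by omega, h9⟩, h10⟩
    rw [h7]
  have hhi : ∑ x ∈ Finset.Ico (Mx e + 1) (n+2), T m (bL (app e x)) (aL (app e x)) =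
      ∑ j ∈ Finset.range (bL e), T m (j + 1) (bL e + aL e - j) := by
    refine Finset.sum_nbij' (fun x => n + 1 - x) (fun j => n + 1 - j) ?_ ?_ ?_ ?_ ?_
    · intro x hx
      rw [Finset.mem_Ico] at hx
      rw [Finset.mem_range]
      omega
    · intro j hj
      rw [Finset.mem_range] at hj
      rw [Finset.mem_Ico]
      omega
    · intro x hx
      rw [Finset.mem_Ico] at hx
      omega
    · intro j hj
      rw [Finset.mem_range] at hj
      omega
    · intro x hx
      obtain ⟨_, _, h4⟩ := h1 n e he x (hhigh' x hx)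
      rw [Finset.mem_Ico] at hx
      obtain ⟨h5, h6⟩ := h4 (by omega)
      rw [h5, h6]
      congr 1
      · omega
      · omega
  rw [hsplit, Finset.sum_union hdisj, hlow, hhi, T_succ, add_comm]

end Pool.Agent.W715.PP
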